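import Pool.Agent.H215R4.E

namespace H215R4
open AddMonoidAlgebra

instance : IsDomain E := inferInstance

/-- elements outside all `(t i)` -/
def S : Submonoid E where
  carrier := {f | ∀ i, ¬ okk i 1 (f : LL)}
  mul_mem' := fun {f g} hf hg i => prime_key (f.2 i) (g.2 i) (hf i) (hg i)
  one_mem' := fun i h => by
    have h1 := h 0
    have : ((1 : E) : LL).coeff 0 = 1 := by
      show (1 : LL).coeff 0 = 1
      rw [AddMonoidAlgebra.one_def, coeff_single, Finsupp.single_eq_same]
    rw [this] at h1
    rcases h1 with h1 | h1
    · norm_num at h1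
    · simp at h1

lemma S_le : S ≤ nonZeroDivisors E := by
  intro f hf
  rw [mem_nonZeroDivisors_iff_ne_zero]
  rintro rfl
  exact hf 0 (okk_zero 0 1)

abbrev D := Localization S

instance : IsDomain D := IsLocalization.isDomain_localization S_le

noncomputable def tau (i : ℕ) : D := algebraMap E D (t i)

lemma E_inj : Function.Injective (algebraMap E D) := IsLocalization.injective D S_le

lemma tau_dvd {i : ℕ} {f : E} : tau i ∣ algebraMap E D f ↔ t i ∣ f := by
  constructor
  · rintro ⟨g, hg⟩
    obtain ⟨⟨a, s⟩, ha⟩ := IsLocalization.surj S g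
    have h1 : f * s = t i * a := by
      apply E_inj
      rw [map_mul, map_mul, hg, mul_assoc]
      simp only at ha
      rw [ha]
      rfl
    by_contra h
    have h2 : ¬ okk i 1 (f : LL) := fun h' => h (t_dvd h')
    have h3 := prime_key (f.2 i) ((s : E).2 i) h2 (s.2 i)
    apply h3
    have := dvd_t (i := i) (f := f * s) ⟨a, h1⟩
    simpa using this
  · rintro ⟨g, rfl⟩
    rw [map_mul]; exact Dvd.intro _ rfl

lemma tau_prime (i : ℕ) : Prime (tau i) := by
  have hT : (t i) ≠ 0 := by
    intro h
    have h1 : T i = 0 := congrArg Subtype.val h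
    have := T_Ti i 1
    rw [h1, zero_mul] at this
    exact zero_ne_one this
  refine ⟨?_, ?_, ?_⟩
  · intro h
    exact hT (E_inj (by rw [map_zero]; exact h))
  · intro h
    have h1 : tau i ∣ algebraMap E D 1 := by rw [map_one]; exact h.dvd
    rw [tau_dvd] at h1
    exact S.one_mem i (dvd_t h1)
  · intro a b hab
    obtain ⟨⟨a', s⟩, ha⟩ := IsLocalization.surj S a
    obtain ⟨⟨b', r⟩, hb⟩ := IsLocalization.surj S b
    have us : IsUnit (algebraMap E D s) := IsLocalization.map_units D s
    have ur : IsUnit (algebraMap E D r) := IsLocalization.map_units D r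
    simp only at ha hb
    have h1 : tau i ∣ algebraMap E D (a' * b') := by
      rw [map_mul, ← ha, ← hb]
      have : a * algebraMap E D s * (b * algebraMap E D r) =
        (a * b) * (algebraMap E D s * algebraMap E D r) := by ring
      rw [this]; exact hab.mul_right _
    rw [tau_dvd] at h1
    have h2 := dvd_t h1
    by_cases h3 : okk i 1 (a' : LL)
    · left
      have := (tau_dvd (i := i)).mpr (t_dvd h3)
      rw [← ha] at this
      exact (us.dvd_mul_right).mp this
    · right
      by_cases h4 : okk i 1 (b' : LL)
      · have := (tau_dvd (i := i)).mpr (t_dvd h4)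
        rw [← hb] at this
        exact (ur.dvd_mul_right).mp this
      · exact absurd h2 (by simpa using prime_key (a'.2 i) (b'.2 i) h3 h4)

lemma okk_all {i : ℕ} {f : LL} (h : ∀ n : ℕ, okk i n f) : f = 0 := by
  by_contra hf
  obtain ⟨m, hm⟩ : ∃ m, f.coeff m ≠ 0 := by
    by_contra h
    push Not at h
    apply hf
    apply AddMonoidAlgebra.ext
    ext m
    simpa using h m
  have h1 := (h ((q i : ℤ) * padicValRat (q i) (f.coeff m) + m i + 1).toNat m).resolve_left hm
  omega

lemma fin_tau (d : D) (hd : d ≠ 0) : {i | tau i ∣ d}.Finite := by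
  obtain ⟨⟨a, s⟩, ha⟩ := IsLocalization.surj S d
  simp only at ha
  have us : IsUnit (algebraMap E D s) := IsLocalization.map_units D s
  have ha0 : (a : LL) ≠ 0 := by
    intro h
    have : a = 0 := Subtype.ext h
    rw [this, map_zero] at ha
    rcases mul_eq_zero.mp ha with h | h
    · exact hd h
    · exact us.ne_zero h
  refine (fin_okk a ha0).subset ?_
  intro i hi
  have h1 : tau i ∣ algebraMap E D a := by rw [← ha]; exact Dvd.dvd.mul_right hi _
  exact dvd_t (tau_dvd.mp h1)

instance : IsPrincipalIdealRing D := by
  apply IsPrincipalIdealRing.of_prime_ne_bot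
  intro P hP hP0
  -- pull back to E
  obtain ⟨d, hdP, hd0⟩ := Submodule.exists_mem_ne_zero_of_ne_bot hP0
  have hex : ∃ i, ∀ f : E, algebraMap E D f ∈ P → okk i 1 (f : LL) := by
    by_contra hne
    push Not at hne
    obtain ⟨⟨a, s⟩, ha⟩ := IsLocalization.surj S d
    simp only at ha
    have us : IsUnit (algebraMap E D s) := IsLocalization.map_units D s
    have haP : algebraMap E D a ∈ P := by rw [← ha]; exact Ideal.mul_mem_right _ _ hdP
    have ha0 : a ≠ 0 := by
      rintro rfl
      rw [map_zero] at ha
      rcases mul_eq_zero.mp ha with h | h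
      · exact hd0 h
      · exact us.ne_zero h
    have ha0' : (a : LL) ≠ 0 := fun h => ha0 (Subtype.ext h)
    -- prime avoidance over the finitely many i with okk i 1 a
    let F := (fin_okk a ha0').toFinset
    let Q : ℕ → Ideal D := fun i => Ideal.span {tau i}
    have hQ : ∀ i ∈ F, (Q i).IsPrime := fun i _ =>
      (Ideal.span_singleton_prime (tau_prime i).ne_zero).mpr (tau_prime i)
    have hnot : ¬ ((P : Set D) ⊆ ⋃ i ∈ (F : Set ℕ), (Q i : Set D)) := by
      intro hsub
      obtain ⟨i, hi, hPi⟩ := (Ideal.subset_union_prime 0 0 (fun i hi _ _ => hQ i hi)).mp hsub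
      obtain ⟨f, hf, hf2⟩ := hne i
      exact hf2 (dvd_t (tau_dvd.mp (Ideal.mem_span_singleton.mp (hPi hf))))
    rw [Set.not_subset] at hnot
    obtain ⟨b0, hb0P, hb0⟩ := hnot
    obtain ⟨⟨b, r⟩, hb⟩ := IsLocalization.surj S b0
    simp only at hb
    have hbP : algebraMap E D b ∈ P := by rw [← hb]; exact Ideal.mul_mem_right _ _ hb0P
    have ur : IsUnit (algebraMap E D r) := IsLocalization.map_units D r
    have hbF : ∀ i, okk i 1 (a : LL) → ¬ okk i 1 (b : LL) := by
      intro i hi hbi
      apply hb0
      simp only [Set.mem_iUnion]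
      refine ⟨i, ?_, ?_⟩
      · simpa [F] using hi
      · have := (tau_dvd (i := i)).mpr (t_dvd hbi)
        rw [← hb] at this
        exact Ideal.mem_span_singleton.mpr ((ur.dvd_mul_right).mp this)
    by_cases hbz : b = 0
    · -- then no i has okk i 1 a, so a is a unit
      have haS : a ∈ S := fun i hi => hbF i hi (by rw [hbz]; exact okk_zero i 1)
      exact hP.ne_top (Ideal.eq_top_of_isUnit_mem _ haP (IsLocalization.map_units D ⟨a, haS⟩))
    · obtain ⟨s', hs'⟩ := comb a b ha0 hbz
      have hcS : (b + t s' * a) ∈ S := by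
        intro i
        apply hs'
        by_cases h : okk i 1 (a : LL)
        · exact Or.inr (hbF i h)
        · exact Or.inl h
      have hcP : algebraMap E D (b + t s' * a) ∈ P := by
        rw [map_add, map_mul]
        exact add_mem hbP (Ideal.mul_mem_left _ _ haP)
      exact hP.ne_top (Ideal.eq_top_of_isUnit_mem _ hcP (IsLocalization.map_units D ⟨_, hcS⟩))
  obtain ⟨i, hi⟩ := hex
  have hPle : P ≤ Ideal.span {tau i} := by
    intro x hx
    obtain ⟨⟨a, s⟩, ha⟩ := IsLocalization.surj S x
    simp only at ha
    have us : IsUnit (algebraMap E D s) := IsLocalization.map_units D s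
    have haP : algebraMap E D a ∈ P := by rw [← ha]; exact Ideal.mul_mem_right _ _ hx
    have := (tau_dvd (i := i)).mpr (t_dvd (hi a haP))
    rw [← ha] at this
    exact Ideal.mem_span_singleton.mpr ((us.dvd_mul_right).mp this)
  have htauP : tau i ∈ P := by
    by_contra hn
    -- then every element of P is divisible by all powers of tau i
    have hall : ∀ n : ℕ, ∀ x ∈ P, ∃ y ∈ P, x = tau i ^ n * y := by
      intro n
      induction n with
      | zero => intro x hx; exact ⟨x, hx, by simp⟩
      | succ n ih =>
        intro x hx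
        obtain ⟨y, hy, rfl⟩ := ih x hx
        obtain ⟨z, rfl⟩ := Ideal.mem_span_singleton.mp (hPle hy)
        refine ⟨z, (hP.mem_or_mem hy).resolve_left hn, by ring⟩
    obtain ⟨⟨a, s⟩, ha⟩ := IsLocalization.surj S d
    simp only at ha
    have us : IsUnit (algebraMap E D s) := IsLocalization.map_units D s
    have haP : algebraMap E D a ∈ P := by rw [← ha]; exact Ideal.mul_mem_right _ _ hdP
    have ha0 : (a : LL) = 0 := by
      apply okk_all (i := i)
      intro n
      obtain ⟨y, _, hy⟩ := hall n _ haP
      obtain ⟨⟨c, r⟩, hc⟩ := IsLocalization.surj S y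
      simp only at hc
      have h1 : a * r = t i ^ n * c := by
        apply E_inj
        rw [map_mul, hy, mul_assoc, hc, map_mul, map_pow]
        rfl
      -- okk n of a * r implies okk n of a
      have hcan : ∀ (n : ℕ) (u v w : E), u * v = t i ^ n * w → ¬ okk i 1 (v : LL) → t i ^ n ∣ u := by
        intro n
        induction n with
        | zero => intro u v w _ _; simp
        | succ n ih =>
          intro u v w h hv
          have h2 : t i ∣ u := by
            apply t_dvd
            by_contra hu
            apply prime_key (u.2 i) (v.2 i) hu hv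
            have : t i ∣ u * v := by rw [h]; exact ⟨t i ^ n * w, by ring⟩
            simpa using dvd_t this
          obtain ⟨u', rfl⟩ := h2
          have ht0 : t i ≠ 0 := fun h => (tau_prime i).ne_zero (by rw [tau, h, map_zero])
          have h3 : u' * v = t i ^ n * w := by
            apply mul_left_cancel₀ ht0
            rw [← mul_assoc, h]; ring
          obtain ⟨w', hw'⟩ := ih u' v w h3 hv
          exact ⟨w', by rw [hw']; ring⟩
      exact dvd_t_pow (hcan n a r c h1 (r.2 i))
    have : a = 0 := Subtype.ext ha0
    rw [this, map_zero] at ha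
    rcases mul_eq_zero.mp ha with h | h
    · exact hd0 h
    · exact us.ne_zero h
  exact ⟨⟨tau i, le_antisymm hPle ((Ideal.span_singleton_le_iff_mem _).mpr htauP)⟩⟩

/-- the base ring -/
theorem exists_D : ∃ (D : Type) (_ : CommRing D) (_ : IsDomain D) (τ : ℕ → D) (q : ℕ → ℕ),
    IsPrincipalIdealRing D ∧ CharZero D ∧ IsUnit (2 : D) ∧ (∀ i, (q i).Prime ∧ Odd (q i)) ∧
    (∀ i, Prime (τ i)) ∧ (∀ i, τ i ^ q i ∣ ((q i : ℕ) : D)) ∧ ∀ d, d ≠ 0 → {i | τ i ∣ d}.Finite := by
  have hch : CharZero D := by
    haveI : CharZero E := by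
      haveI : CharZero LL := by
        refine ⟨fun a b h => ?_⟩
        have h1 : (single 0 (a : ℚ) : LL) = single 0 (b : ℚ) := by
          have := h
          rwa [AddMonoidAlgebra.natCast_def, AddMonoidAlgebra.natCast_def] at this
        have h2 := congrArg (fun f : LL => f.coeff 0) h1
        simpa using h2
      exact ⟨fun a b h => by
        have h1 : ((a : E) : LL) = ((b : E) : LL) := congrArg _ h
        push_cast at h1
        exact_mod_cast h1⟩
    exact ⟨fun a b h => by
      have h1 : algebraMap E D (a : E) = algebraMap E D (b : E) := by simpa using h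
      exact_mod_cast E_inj h1⟩
  refine ⟨D, inferInstance, inferInstance, tau, q, inferInstance, hch, ?_,
    fun i => ⟨q_prime i, q_odd i⟩, tau_prime, ?_, fin_tau⟩
  · have h2 : (2 : E) ∈ S := by
      intro i h
      have h1 := h 0
      have e : ((2 : E) : LL).coeff 0 = 2 := by
        show ((2 : ℕ) : LL).coeff 0 = 2
        rw [AddMonoidAlgebra.natCast_def, coeff_single, Finsupp.single_eq_same]
        norm_num
      rw [e] at h1
      rcases h1 with h1 | h1
      · norm_num at h1
      · have h3 : padicValRat (q i) (2 : ℚ) = 0 := by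
          have : ((2 : ℕ) : ℚ) = 2 := by norm_num
          rw [← this, padicValRat.of_nat]
          have : ¬ q i ∣ 2 := by
            intro hd
            have := (Nat.prime_dvd_prime_iff_eq (q_prime i) Nat.prime_two).mp hd
            have ho := q_odd i
            rw [this] at ho
            exact absurd ho (by decide)
          rw [padicValNat.eq_zero_of_not_dvd this]
          rfl
        rw [h3] at h1
        simp at h1
    have h4 : IsUnit (algebraMap E D 2) := IsLocalization.map_units D ⟨(2 : E), h2⟩
    have h3 : algebraMap E D 2 = 2 := map_ofNat _ 2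
    rw [← h3]; exact h4
  · intro i
    obtain ⟨c, hc⟩ := t_pow_dvd i
    refine ⟨algebraMap E D c, ?_⟩
    have := congrArg (algebraMap E D) hc
    rw [map_natCast, map_mul, map_pow] at this
    exact this

end H215R4
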