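import Mathlib

namespace H215R4
open AddMonoidAlgebra

/-- the odd primes -/
noncomputable def q (i : ℕ) : ℕ := Nat.nth Nat.Prime (i + 1)

lemma q_prime (i : ℕ) : (q i).Prime := Nat.prime_nth_prime _

instance (i : ℕ) : Fact (q i).Prime := ⟨q_prime i⟩

lemma q_inj : Function.Injective q := fun i j h => by
  have := Nat.nth_injective Nat.infinite_setOf_prime h
  omega

lemma q_odd (i : ℕ) : Odd (q i) := by
  have h1 : Nat.nth Nat.Prime 0 < q i :=
    Nat.nth_strictMono Nat.infinite_setOf_prime (Nat.succ_pos i)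
  rw [Nat.nth_prime_zero_eq_two] at h1
  exact (q_prime i).odd_of_ne_two h1.ne'

abbrev Ex := ℕ →₀ ℤ
abbrev LL := AddMonoidAlgebra ℚ Ex

def ok (i : ℕ) (k : ℤ) (c : ℚ) (m : Ex) : Prop :=
  c = 0 ∨ k ≤ (q i : ℤ) * padicValRat (q i) c + m i

lemma ok_zero (i : ℕ) (k : ℤ) (m : Ex) : ok i k 0 m := Or.inl rfl

lemma ok_add {i : ℕ} {k : ℤ} {c d : ℚ} {m : Ex} (hc : ok i k c m) (hd : ok i k d m) :
    ok i k (c + d) m := by
  rcases hc with rfl | hc
  · simpa using hd
  rcases hd with rfl | hd
  · rw [add_zero]; exact Or.inr hc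
  by_cases h : c + d = 0
  · exact Or.inl h
  · right
    have h1 := padicValRat.min_le_padicValRat_add (p := q i) h
    have hq : (0 : ℤ) ≤ q i := by positivity
    rcases min_le_iff.mp h1 with h2 | h2
    · have := mul_le_mul_of_nonneg_left h2 hq
      linarith
    · have := mul_le_mul_of_nonneg_left h2 hq
      linarith

lemma ok_neg {i : ℕ} {k : ℤ} {c : ℚ} {m : Ex} (hc : ok i k c m) : ok i k (-c) m := by
  rcases hc with rfl | hc
  · simpa using ok_zero i k m
  · right; rwa [padicValRat.neg]

lemma ok_mul {i : ℕ} {k l : ℤ} {c d : ℚ} {m n : Ex} (hc : ok i k c m) (hd : ok i l d n) :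
    ok i (k + l) (c * d) (m + n) := by
  by_cases h1 : c = 0
  · left; simp [h1]
  by_cases h2 : d = 0
  · left; simp [h2]
  right
  have hc := hc.resolve_left h1
  have hd := hd.resolve_left h2
  rw [padicValRat.mul h1 h2, Finsupp.add_apply]
  linarith

def okk (i : ℕ) (k : ℤ) (f : LL) : Prop := ∀ m, ok i k (f.coeff m) m

lemma ok_sum {ι : Type*} (s : Finset ι) (F : ι → ℚ) {i : ℕ} {k : ℤ} {m : Ex}
    (h : ∀ j ∈ s, ok i k (F j) m) : ok i k (∑ j ∈ s, F j) m := by
  classical
  induction s using Finset.induction_on with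
  | empty => simpa using ok_zero i k m
  | insert a s ha ih =>
    rw [Finset.sum_insert ha]
    exact ok_add (h a (Finset.mem_insert_self _ _)) (ih fun j hj => h j (Finset.mem_insert_of_mem hj))

lemma coeff_mul' (f g : LL) (m : Ex) : (f * g).coeff m =
    ∑ x ∈ f.coeff.support ×ˢ g.coeff.support,
      if x.1 + x.2 = m then f.coeff x.1 * g.coeff x.2 else 0 := by
  classical
  rw [coeff_mul, Finset.sum_product]
  rfl

lemma okk_mul {i : ℕ} {k l : ℤ} {f g : LL} (hf : okk i k f) (hg : okk i l g) :
    okk i (k + l) (f * g) := by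
  intro m
  rw [coeff_mul']
  apply ok_sum
  rintro ⟨a, b⟩ _
  dsimp only
  split_ifs with h
  · rw [← h]; exact ok_mul (hf a) (hg b)
  · exact ok_zero _ _ _

lemma okk_add {i : ℕ} {k : ℤ} {f g : LL} (hf : okk i k f) (hg : okk i k g) :
    okk i k (f + g) := fun m => by
  rw [coeff_add]; exact ok_add (hf m) (hg m)

lemma okk_neg {i : ℕ} {k : ℤ} {f : LL} (hf : okk i k f) : okk i k (-f) := fun m => by
  have : (-f).coeff m = -(f.coeff m) := rfl
  rw [this]; exact ok_neg (hf m)

lemma okk_zero (i : ℕ) (k : ℤ) : okk i k 0 := fun m => Or.inl rfl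

lemma okk_single {i : ℕ} {k : ℤ} {a : Ex} {c : ℚ} (h : k ≤ (q i : ℤ) * padicValRat (q i) c + a i) :
    okk i k (single a c) := by
  classical
  intro m
  rw [coeff_single, Finsupp.single_apply]
  split_ifs with h1
  · subst h1; exact Or.inr h
  · exact ok_zero _ _ _

lemma okk_one (i : ℕ) : okk i 0 1 := by
  have : (1 : LL) = single 0 1 := rfl
  rw [this]; exact okk_single (by simp)

lemma okk_mono {i : ℕ} {k l : ℤ} (h : k ≤ l) {f : LL} (hf : okk i l f) : okk i k f := fun m =>
  (hf m).imp_right fun h' => h.trans h'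

/-- `E` -/
def E : Subring LL where
  carrier := {f | ∀ i, okk i 0 f}
  mul_mem' := fun {f g} hf hg i => by simpa using okk_mul (hf i) (hg i)
  one_mem' := okk_one
  add_mem' := fun hf hg i => okk_add (hf i) (hg i)
  zero_mem' := fun i => okk_zero i 0
  neg_mem' := fun hf i => okk_neg (hf i)

lemma prime_key {i : ℕ} {f g : LL} (hf : okk i 0 f) (hg : okk i 0 g) (hf1 : ¬ okk i 1 f)
    (hg1 : ¬ okk i 1 g) : ¬ okk i 1 (f * g) := by
  classical
  intro hfg
  set A := f.coeff.support.filter (fun a => ¬ ok i 1 (f.coeff a) a) with hA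
  set B := g.coeff.support.filter (fun a => ¬ ok i 1 (g.coeff a) a) with hB
  have hAne : A.Nonempty := by
    simp only [okk, not_forall] at hf1
    obtain ⟨a, ha⟩ := hf1
    refine ⟨a, ?_⟩
    rw [hA, Finset.mem_filter]
    exact ⟨Finsupp.mem_support_iff.mpr fun h => ha (Or.inl h), ha⟩
  have hBne : B.Nonempty := by
    simp only [okk, not_forall] at hg1
    obtain ⟨a, ha⟩ := hg1
    refine ⟨a, ?_⟩
    rw [hB, Finset.mem_filter]
    exact ⟨Finsupp.mem_support_iff.mpr fun h => ha (Or.inl h), ha⟩
  obtain ⟨a, ha, b, hb, hu⟩ := UniqueSums.uniqueAdd_of_nonempty hAne hBne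
  have hm := hfg (a + b)
  have ha' := Finset.mem_filter.mp ha
  have hb' := Finset.mem_filter.mp hb
  have hab : (a, b) ∈ f.coeff.support ×ˢ g.coeff.support :=
    Finset.mem_product.mpr ⟨ha'.1, hb'.1⟩
  rw [coeff_mul', ← Finset.add_sum_erase _ _ hab] at hm
  simp only [if_true] at hm
  have hrest : ok i 1 (∑ x ∈ (f.coeff.support ×ˢ g.coeff.support).erase (a, b),
      if x.1 + x.2 = a + b then f.coeff x.1 * g.coeff x.2 else 0) (a + b) := by
    apply ok_sum
    rintro ⟨c, d⟩ hcd
    rw [Finset.mem_erase, Finset.mem_product] at hcd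
    dsimp only
    split_ifs with h
    · by_cases h1 : ok i 1 (f.coeff c) c
      · have := ok_mul h1 (hg d)
        rw [h] at this
        simpa using this
      by_cases h2 : ok i 1 (g.coeff d) d
      · have := ok_mul (hf c) h2
        rw [h] at this
        simpa using this
      exfalso
      apply hcd.1
      have := hu (a := c) (b := d) (Finset.mem_filter.mpr ⟨hcd.2.1, h1⟩)
        (Finset.mem_filter.mpr ⟨hcd.2.2, h2⟩) h
      exact Prod.ext this.1 this.2
    · exact ok_zero _ _ _
  have hprod : ok i 1 (f.coeff a * g.coeff b) (a + b) := by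
    have := ok_add hm (ok_neg hrest)
    simpa using this
  have hfa : f.coeff a ≠ 0 := fun h => ha'.2 (Or.inl h)
  have hgb : g.coeff b ≠ 0 := fun h => hb'.2 (Or.inl h)
  rcases hprod with h | h
  · exact (mul_ne_zero hfa hgb) h
  · rw [padicValRat.mul hfa hgb, Finsupp.add_apply] at h
    have h1 : ¬ (1 ≤ (q i : ℤ) * padicValRat (q i) (f.coeff a) + a i) := fun h => ha'.2 (Or.inr h)
    have h2 : ¬ (1 ≤ (q i : ℤ) * padicValRat (q i) (g.coeff b) + b i) := fun h => hb'.2 (Or.inr h)
    push Not at h1 h2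
    nlinarith

lemma single_mul_cancel (a : Ex) (f : LL) : single (-a) (1 : ℚ) * (single a 1 * f) = f := by
  rw [← mul_assoc, single_mul_single]
  simp only [neg_add_cancel, one_mul]
  exact one_mul f

/-- `T i` -/
noncomputable def T (i : ℕ) : LL := single (Finsupp.single i 1) 1
noncomputable def Ti (i : ℕ) : LL := single (-Finsupp.single i 1) 1

lemma T_Ti (i : ℕ) (f : LL) : T i * (Ti i * f) = f := by
  have := single_mul_cancel (-Finsupp.single i 1) f
  simpa [T, Ti] using this

lemma okk_T_self (i : ℕ) : okk i 1 (T i) := okk_single (by simp)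
lemma okk_T (i j : ℕ) : okk j 0 (T i) := okk_single (by
  rw [padicValRat.one]
  by_cases h : i = j
  · subst h; simp
  · simp [Finsupp.single_apply, h])
lemma okk_Ti_self (i : ℕ) : okk i (-1) (Ti i) := okk_single (by simp)
lemma okk_Ti (i j : ℕ) (h : i ≠ j) : okk j 0 (Ti i) := okk_single (by
  rw [padicValRat.one]
  simp [Finsupp.single_apply, h])

noncomputable def t (i : ℕ) : E := ⟨T i, okk_T i⟩

/-- membership in `t i` -/
lemma t_dvd {i : ℕ} {f : E} (h : okk i 1 (f : LL)) : t i ∣ f := by
  refine ⟨⟨Ti i * f, ?_⟩, ?_⟩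
  · intro j
    by_cases hij : i = j
    · subst hij
      simpa using okk_mul (okk_Ti_self i) h
    · simpa using okk_mul (okk_Ti i j hij) (f.2 j)
  · apply Subtype.ext
    exact (T_Ti i f).symm

lemma dvd_t {i : ℕ} {f : E} (h : t i ∣ f) : okk i 1 (f : LL) := by
  obtain ⟨g, rfl⟩ := h
  have := okk_mul (okk_T_self i) (g.2 i)
  rw [add_zero] at this
  exact this

lemma dvd_t_pow {i n : ℕ} {f : E} (h : t i ^ n ∣ f) : okk i n (f : LL) := by
  obtain ⟨g, rfl⟩ := h
  have h1 : ∀ n : ℕ, okk i n (T i ^ n) := by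
    intro n
    induction n with
    | zero => simpa using okk_one i
    | succ n ih =>
      rw [pow_succ]
      have := okk_mul ih (okk_T_self i)
      simpa using this
  have := okk_mul (h1 n) (g.2 i)
  simpa [t] using this

/-- `p` is divisible by `t^p` -/
lemma t_pow_dvd (i : ℕ) : t i ^ (q i) ∣ ((q i : ℕ) : E) := by
  refine ⟨⟨single (Finsupp.single i (-(q i : ℤ))) (q i : ℚ), ?_⟩, ?_⟩
  · intro j
    apply okk_single
    by_cases h : i = j
    · subst h
      simp [padicValRat.of_nat, padicValNat_self]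
    · have hne : q i ≠ q j := fun h' => h (q_inj h')
      rw [Finsupp.single_apply, if_neg h, add_zero, padicValRat.of_nat]
      positivity
  · apply Subtype.ext
    show ((q i : ℕ) : LL) = T i ^ (q i) * single (Finsupp.single i (-(q i : ℤ))) (q i : ℚ)
    rw [T, single_pow, single_mul_single]
    have : (q i) • (Finsupp.single i (1 : ℤ)) + Finsupp.single i (-(q i : ℤ)) = 0 := by
      rw [Finsupp.smul_single, ← Finsupp.single_add]
      simp
    rw [this]
    simp
    rfl

lemma fin_aux (c : ℚ) (hc : c ≠ 0) : {i | 0 < padicValRat (q i) c}.Finite := by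
  have h1 : {i | 0 < padicValRat (q i) c} ⊆ q ⁻¹' ((c.num.natAbs.divisors : Finset ℕ) : Set ℕ) := by
    intro i hi
    simp only [Set.mem_ofPred_eq, Set.mem_preimage, Finset.mem_coe, Nat.mem_divisors] at *
    have hn : c.num.natAbs ≠ 0 := by simpa using hc
    refine ⟨?_, hn⟩
    by_contra hd
    have h2 : padicValInt (q i) c.num = 0 := by
      rw [padicValInt]
      exact padicValNat.eq_zero_of_not_dvd hd
    rw [padicValRat, h2] at hi
    have : (0 : ℤ) ≤ padicValNat (q i) c.den := by positivity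
    simp at hi
    omega
  exact (Set.Finite.preimage q_inj.injOn (Finset.finite_toSet _)).subset h1

lemma fin_okk (f : LL) (hf : f ≠ 0) : {i | okk i 1 f}.Finite := by
  obtain ⟨m, hm⟩ : ∃ m, f.coeff m ≠ 0 := by
    by_contra h
    push Not at h
    apply hf
    apply AddMonoidAlgebra.ext
    ext m
    simpa using h m
  refine ((fin_aux _ hm).union m.support.finite_toSet).subset ?_
  intro i hi
  by_contra h
  simp only [Set.mem_union, Set.mem_ofPred_eq, Finset.mem_coe, Finsupp.mem_support_iff, not_or,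
    not_not, not_lt] at h
  have h1 := (hi m).resolve_left hm
  rw [h.2] at h1
  have hq : (0 : ℤ) ≤ q i := by positivity
  nlinarith [mul_nonneg hq (neg_nonneg.mpr h.1)]

/-- generic combination -/
lemma comb (a b : E) (ha : a ≠ 0) (hb : b ≠ 0) : ∃ s : ℕ, ∀ i,
    (¬ okk i 1 (a : LL) ∨ ¬ okk i 1 (b : LL)) → ¬ okk i 1 ((b + t s * a : E) : LL) := by
  classical
  have hb0 : (b : LL) ≠ 0 := fun h => hb (Subtype.ext h)
  let sup : Finset ℕ := (a : LL).coeff.support.biUnion (fun m => m.support) ∪
    (b : LL).coeff.support.biUnion (fun m => m.support) ∪ (fin_okk b hb0).toFinset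
  obtain ⟨s, hs⟩ := Infinite.exists_notMem_finset sup
  simp only [sup, Finset.mem_union, Finset.mem_biUnion, not_or, not_exists, not_and,
    Set.Finite.mem_toFinset, Set.mem_ofPred_eq, Finsupp.mem_support_iff, not_not] at hs
  obtain ⟨⟨hs1, hs2⟩, hs3⟩ := hs
  refine ⟨s, fun i hi hcomb => ?_⟩
  have hta : okk s 1 ((t s * a : E) : LL) := dvd_t ⟨a, rfl⟩
  have hcoe : ((b + t s * a : E) : LL) = (b : LL) + T s * (a : LL) := rfl
  -- coefficients
  have c1 : ∀ m, (b : LL).coeff m ≠ 0 → (T s * (a : LL)).coeff m = 0 := by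
    intro m hm
    have h0 : m s = 0 := hs2 m hm
    have e : m = Finsupp.single s 1 + (m - Finsupp.single s 1) := by abel
    rw [e, T, coeff_single_mul_add, one_mul]
    by_contra h
    have := hs1 _ h
    rw [Finsupp.sub_apply, h0, Finsupp.single_eq_same] at this
    norm_num at this
  rcases hi with hi | hi
  · -- a not divisible
    by_cases his : i = s
    · subst his
      apply hs3
      have := okk_add hcomb (okk_neg hta)
      have e : ((b + t i * a : E) : LL) + -((t i * a : E) : LL) = (b : LL) := by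
        push_cast; ring
      rwa [e] at this
    · simp only [okk, not_forall] at hi
      obtain ⟨m, hm⟩ := hi
      have hm0 : (a : LL).coeff m ≠ 0 := fun h => hm (Or.inl h)
      have h1 := hcomb (Finsupp.single s 1 + m)
      have h2 : (b : LL).coeff (Finsupp.single s 1 + m) = 0 := by
        by_contra h
        have h3 := hs2 _ h
        rw [Finsupp.add_apply, hs1 m hm0, Finsupp.single_eq_same] at h3
        norm_num at h3
      rw [hcoe, coeff_add, Finsupp.add_apply, h2, zero_add, T, coeff_single_mul_add, one_mul] at h1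
      apply hm
      rcases h1 with h1 | h1
      · exact Or.inl h1
      · right
        rwa [Finsupp.add_apply, Finsupp.single_apply, if_neg (Ne.symm his), zero_add] at h1
  · simp only [okk, not_forall] at hi
    obtain ⟨m, hm⟩ := hi
    have hm0 : (b : LL).coeff m ≠ 0 := fun h => hm (Or.inl h)
    have h1 := hcomb m
    rw [hcoe, coeff_add, Finsupp.add_apply, c1 m hm0, add_zero] at h1
    exact hm h1

end H215R4
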