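import Pool.Agent.H215R4.Spl

namespace H215R4

/-- The basic non-splitting. -/
theorem not_splinter (A : Type) [CommRing A] [IsDomain A] (p : ℕ) (hp : p.Prime) (hodd : Odd p)
    (x y z t c d u : A) (h1 : x ^ p = y ^ p * c + z ^ p * d) (h2 : (p : A) = t ^ p * u)
    (ht : t ≠ 0) (hx : x ∉ Ideal.span ({y, z, t} : Set A)) : ¬ IsSplinter A := by
  intro hS
  let Ω := AlgebraicClosure (FractionRing A)
  have hinj : Function.Injective (algebraMap A Ω) := by
    rw [IsScalarTower.algebraMap_eq A (FractionRing A) Ω]
    exact (algebraMap (FractionRing A) Ω).injective.comp (IsFractionRing.injective A _)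
  obtain ⟨c', hc⟩ := IsAlgClosed.exists_pow_nat_eq (algebraMap A Ω c) hp.pos
  obtain ⟨d', hd⟩ := IsAlgClosed.exists_pow_nat_eq (algebraMap A Ω d) hp.pos
  have ht' : algebraMap A Ω t ≠ 0 := by
    rw [Ne, map_eq_zero_iff _ hinj]; exact ht
  set f := algebraMap A Ω with hf
  have ic : IsIntegral A c' := IsIntegral.of_pow hp.pos (by rw [hc]; exact isIntegral_algebraMap)
  have id' : IsIntegral A d' := IsIntegral.of_pow hp.pos (by rw [hd]; exact isIntegral_algebraMap)
  -- the expansion
  obtain ⟨e, he, hie⟩ : ∃ e : Ω, f x = f y * c' + f z * d' + f t * e ∧ IsIntegral A e := by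
    let S := integralClosure A Ω
    let X : S := ⟨f x, isIntegral_algebraMap⟩
    let Y : S := ⟨f y * c', (isIntegral_algebraMap).mul ic⟩
    let Z : S := ⟨f z * d', (isIntegral_algebraMap).mul id'⟩
    obtain ⟨r1, hr1⟩ := exists_add_pow_prime_eq hp (X + -Y) (-Z)
    obtain ⟨r2, hr2⟩ := exists_add_pow_prime_eq hp X (-Y)
    have key : (X - Y - Z) ^ p = (p : S) * ((X * -Y) * r2 + (X + -Y) * (-Z) * r1) := by
      have hz : X ^ p - Y ^ p - Z ^ p = 0 := by
        apply Subtype.ext
        show (f x) ^ p - (f y * c') ^ p - (f z * d') ^ p = 0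
        rw [mul_pow, mul_pow, hc, hd, ← map_pow, h1, map_add, map_mul, map_mul, map_pow, map_pow]
        ring
      have e1 : X - Y - Z = X + -Y + -Z := by ring
      rw [e1, hr1, hr2, hodd.neg_pow, hodd.neg_pow]
      linear_combination hz
    set R := ((X * -Y) * r2 + (X + -Y) * (-Z) * r1) with hR
    refine ⟨(f x - f y * c' - f z * d') / f t, ?_, ?_⟩
    · rw [mul_comm (f t), div_mul_cancel₀ _ ht']
      ring
    · apply IsIntegral.of_pow hp.pos
      have key2 : (f x - f y * c' - f z * d') ^ p = (p : Ω) * (R : Ω) := by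
        have := congrArg (Subtype.val) key
        simpa using this
      have hpu : (p : Ω) = f t ^ p * f u := by
        rw [← map_natCast f p, h2, map_mul, map_pow]
      have : ((f x - f y * c' - f z * d') / f t) ^ p = f u * (R : Ω) := by
        rw [div_pow, key2, hpu, mul_assoc, mul_div_cancel_left₀ _ (pow_ne_zero _ ht')]
      rw [this]
      exact (isIntegral_algebraMap).mul R.2
  -- the finite extension
  let B := Algebra.adjoin A ({c', d', e} : Set Ω)
  have hBfg : Module.Finite A B := by
    have hfg : (Subalgebra.toSubmodule B).FG := by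
      apply fg_adjoin_of_finite (by simp)
      intro w hw
      simp only [Set.mem_insert_iff, Set.mem_singleton_iff] at hw
      rcases hw with rfl | rfl | rfl
      · exact ic
      · exact id'
      · exact hie
    have : Module.Finite A (Subalgebra.toSubmodule B) := Module.Finite.iff_fg.mpr hfg
    exact this
  have hinjB : Function.Injective (algebraMap A B) := by
    intro a b hab
    apply hinj
    exact congrArg Subtype.val hab
  haveI : Algebra.IsIntegral A B := Algebra.IsIntegral.of_finite A B
  obtain ⟨ρ, hρ⟩ := hS B hBfg (by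
    intro P
    obtain ⟨Q, hQ, hQ2⟩ := Ideal.exists_ideal_over_prime_of_isIntegral P.asIdeal (⊥ : Ideal B) (by
      intro a ha
      have : algebraMap A B a = 0 := ha
      rw [map_eq_zero_iff _ hinjB] at this
      rw [this]; exact zero_mem _)
    exact ⟨⟨Q, hQ2.1⟩, PrimeSpectrum.ext hQ2.2⟩)
  apply hx
  have hc'B : c' ∈ B := Algebra.subset_adjoin (by simp)
  have hd'B : d' ∈ B := Algebra.subset_adjoin (by simp)
  have heB : e ∈ B := Algebra.subset_adjoin (by simp)
  have hmain : x • (1 : B) = y • (⟨c', hc'B⟩ : B) + z • (⟨d', hd'B⟩ : B) + t • (⟨e, heB⟩ : B) := by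
    apply Subtype.ext
    show x • (1 : Ω) = y • c' + z • d' + t • e
    simp only [Algebra.smul_def, mul_one]
    exact he
  have h3 := congrArg ρ hmain
  rw [map_smul, map_add, map_add, map_smul, map_smul, map_smul, hρ] at h3
  simp only [smul_eq_mul, mul_one] at h3
  rw [h3]
  refine add_mem (add_mem ?_ ?_) ?_
  · exact Ideal.mul_mem_right _ _ (Ideal.subset_span (by simp))
  · exact Ideal.mul_mem_right _ _ (Ideal.subset_span (by simp))
  · exact Ideal.mul_mem_right _ _ (Ideal.subset_span (by simp))

end H215R4
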