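import Pool.Agent.H215R4.R

namespace H215R4
open Polynomial

section
variable (D : Type) [CommRing D] [IsDomain D] [IsPrincipalIdealRing D]

instance R_normal [h2 : Fact (IsUnit (2 : D))] : IsIntegrallyClosed (R D) := by
  have hu2 : IsUnit (2 : U D) := by
    have h3 := (h2.out.map (C : D →+* D[X])).map (C : D[X] →+* U D)
    have e : (C : D[X] →+* U D) ((C : D →+* D[X]) (2 : D)) = (2 : U D) := by
      rw [map_ofNat, map_ofNat]
    rwa [e] at h3
  have hinjR : Function.Injective (algebraMap (R D) (FractionRing (R D))) :=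
    IsFractionRing.injective (R D) _
  have hinj : Function.Injective (algebraMap (U D) (R D)) := fun a b hab =>
    congrArg QuadraticAlgebra.re hab
  let σ : R D →+* R D := starRingEnd (R D)
  have hσ : ∀ z : R D, σ z = star z := fun _ => rfl
  have hσinj : Function.Injective σ := star_injective
  let j : R D →+* FractionRing (R D) := (algebraMap (R D) (FractionRing (R D))).comp σ
  have hj : Function.Injective j := hinjR.comp hσinj
  let σL : FractionRing (R D) →+* FractionRing (R D) := IsFractionRing.lift hj
  have hσL : ∀ z : R D, σL (algebraMap (R D) (FractionRing (R D)) z) =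
      algebraMap (R D) (FractionRing (R D)) (star z) := fun z =>
    IsFractionRing.lift_algebraMap hj z
  let σA : FractionRing (R D) →ₐ[U D] FractionRing (R D) :=
    { σL with
      commutes' := fun u => by
        show σL (algebraMap (U D) (FractionRing (R D)) u) = algebraMap (U D) (FractionRing (R D)) u
        rw [IsScalarTower.algebraMap_apply (U D) (R D) (FractionRing (R D)), hσL]
        congr 1
        ext <;> simp [R_algebraMap] }
  have hσA : ∀ x, σA x = σL x := fun _ => rfl
  haveI := R_int D
  refine (isIntegrallyClosed_iff (FractionRing (R D))).mpr ?_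
  intro α hα
  have hαU : IsIntegral (U D) α := isIntegral_trans (R := U D) (A := R D) α hα
  obtain ⟨r, s, hs, rfl⟩ := IsFractionRing.div_surjective (A := R D) α
  have hs0 : s ≠ 0 := nonZeroDivisors.ne_zero hs
  have hss : s * star s = algebraMap (U D) (R D) (QuadraticAlgebra.norm s) :=
    (QuadraticAlgebra.algebraMap_norm_eq_mul_star s).symm
  have hn0 : QuadraticAlgebra.norm s ≠ 0 := by
    intro h
    rw [h, map_zero] at hss
    rcases mul_eq_zero.mp hss with h | h
    · exact hs0 h
    · exact hs0 (star_eq_zero.mp h)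
  set c : U D := QuadraticAlgebra.norm s with hc
  set w : R D := r * star s with hw
  set Fr := FractionRing (R D) with hFr
  have hsF : algebraMap (R D) Fr s ≠ 0 := by rwa [Ne, map_eq_zero_iff _ hinjR]
  have hcF : algebraMap (R D) Fr (algebraMap (U D) (R D) c) ≠ 0 := by
    rw [Ne, map_eq_zero_iff _ hinjR, map_eq_zero_iff _ hinj]; exact hn0
  have hα2 : algebraMap (R D) Fr r / algebraMap (R D) Fr s =
      algebraMap (R D) Fr w / algebraMap (R D) Fr (algebraMap (U D) (R D) c) := by
    rw [div_eq_div_iff hsF hcF, ← map_mul, ← map_mul, ← hss, hw, mul_comm s (star s), ← mul_assoc]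
  rw [hα2] at hαU ⊢
  have hσα : IsIntegral (U D) (algebraMap (R D) Fr (star w) /
      algebraMap (R D) Fr (algebraMap (U D) (R D) c)) := by
    have := hαU.map σA
    rw [hσA, map_div₀, hσL, hσL] at this
    have e : star (algebraMap (U D) (R D) c) = algebraMap (U D) (R D) c := by
      ext <;> simp [R_algebraMap]
    rwa [e] at this
  -- real part
  have h1 : c ∣ 2 * w.re := by
    apply int_dvd D _ _ hn0
    have := hαU.add hσα
    rw [← add_div, ← map_add] at this
    have e : w + star w = algebraMap (U D) (R D) (2 * w.re) := by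
      ext <;> simp [R_algebraMap, two_mul]
    rw [e, ← IsScalarTower.algebraMap_apply, ← IsScalarTower.algebraMap_apply] at this
    exact this
  have h2 : c ∣ w.re := (hu2.dvd_mul_left).mp h1
  have h3 : c ^ 2 ∣ 4 * (w.im ^ 2 * g D) := by
    apply int_dvd D _ _ (pow_ne_zero 2 hn0)
    have := (hαU.sub hσα).pow 2
    rw [← sub_div, ← map_sub, div_pow, ← map_pow, ← map_pow, ← map_pow] at this
    have e : (w - star w) ^ 2 = algebraMap (U D) (R D) (4 * (w.im ^ 2 * g D)) := by
      rw [pow_two]
      ext1
      · simp [R_algebraMap, QuadraticAlgebra.re_mul]; ring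
      · simp [R_algebraMap, QuadraticAlgebra.im_mul]
    rw [e, ← IsScalarTower.algebraMap_apply, ← IsScalarTower.algebraMap_apply] at this
    exact this
  have hu4 : IsUnit (4 : U D) := by
    have : (4 : U D) = 2 * 2 := by norm_num
    rw [this]; exact hu2.mul hu2
  have h4 : c ∣ w.im := sq_dvd D _ _ ((hu4.dvd_mul_left).mp h3)
  obtain ⟨m, hm⟩ := h2
  obtain ⟨n, hn⟩ := h4
  have e : (⟨m, n⟩ : R D) * algebraMap (U D) (R D) c = w := by
    apply QuadraticAlgebra.ext
    · rw [QuadraticAlgebra.re_mul, R_algebraMap, hm]; ring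
    · rw [QuadraticAlgebra.im_mul, R_algebraMap, hn]; ring
  exact ⟨⟨m, n⟩, by rw [eq_div_iff hcF, ← map_mul, e]⟩

end
end H215R4
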