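import Pool.Agent.H215R4.D
import Pool.Agent.H215R4.RN
import Pool.Agent.H215R4.Non

namespace H215R4
open Polynomial

section
variable (D : Type) [CommRing D] [IsDomain D] [IsPrincipalIdealRing D]

/-- `x, y, z ↦ 0` -/
noncomputable def ev : R D →+* D where
  toFun r := (r.re.eval 0).eval 0
  map_one' := by simp [QuadraticAlgebra.re_one]
  map_mul' a b := by
    have hg : ((g D).eval 0).eval 0 = 0 := by simp [g]
    simp [QuadraticAlgebra.re_mul, hg]
  map_zero' := by simp
  map_add' a b := by simp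

lemma ev_apply (r : R D) : ev D r = (r.re.eval 0).eval 0 := rfl

noncomputable def yy : R D := ⟨X, 0⟩
noncomputable def zz : R D := ⟨C X, 0⟩
noncomputable def xx : R D := ⟨0, 1⟩
noncomputable def cc (d : D) : R D := ⟨C (C d), 0⟩

lemma cc_algebraMap (d : D) : algebraMap D (R D) d = cc D d := rfl

lemma g_mem : g D ∈ (Ideal.span {(X : U D)} ⊔ Ideal.span {(C X : U D)}) ^ 7 := by
  rw [g]
  refine add_mem ?_ ?_
  · exact Ideal.pow_mem_pow (Ideal.mem_sup_left (Ideal.mem_span_singleton_self _)) 7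
  · rw [map_mul, map_pow]
    exact Ideal.mul_mem_right _ _
      (Ideal.pow_mem_pow (Ideal.mem_sup_right (Ideal.mem_span_singleton_self _)) 7)

lemma x_pow (p : ℕ) (hp : Odd p) (hp3 : 3 ≤ p) :
    ∃ c d : R D, xx D ^ p = yy D ^ p * c + zz D ^ p * d := by
  obtain ⟨k, hk⟩ := hp
  have h1 : (g D) ^ k ∈ Ideal.span {(X : U D)} ^ p ⊔ Ideal.span {(C X : U D)} ^ p := by
    apply Ideal.sup_pow_add_le_pow_sup_pow
    have h2 := Ideal.pow_mem_pow (g_mem D) k
    rw [← pow_mul] at h2
    exact Ideal.pow_le_pow_right (by omega) h2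
  rw [Ideal.span_singleton_pow, Ideal.span_singleton_pow] at h1
  obtain ⟨a, ha, b, hb, hab⟩ := Submodule.mem_sup.mp h1
  obtain ⟨c, rfl⟩ := Ideal.mem_span_singleton.mp ha
  obtain ⟨d, rfl⟩ := Ideal.mem_span_singleton.mp hb
  refine ⟨xx D * algebraMap (U D) (R D) c, xx D * algebraMap (U D) (R D) d, ?_⟩
  have hxx : xx D ^ 2 = algebraMap (U D) (R D) (g D) := by
    rw [pow_two]
    ext1
    · simp [xx, R_algebraMap, QuadraticAlgebra.re_mul]
    · simp [xx, R_algebraMap, QuadraticAlgebra.im_mul]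
  have hy : yy D = algebraMap (U D) (R D) X := rfl
  have hz : zz D = algebraMap (U D) (R D) (C X) := rfl
  have h3 : xx D ^ p = xx D * algebraMap (U D) (R D) ((g D) ^ k) := by
    rw [hk, pow_succ, pow_mul, hxx, ← map_pow]; ring
  rw [h3, ← hab, hy, hz, map_add, map_mul, map_mul, map_pow, map_pow]
  ring

/-- the prime ideal over `π` -/
noncomputable def QQ (π : D) : Ideal (R D) := (Ideal.span {π}).comap (ev D)

lemma QQ_prime (π : D) (h : Prime π) : (QQ D π).IsPrime := by
  haveI : (Ideal.span {π}).IsPrime := (Ideal.span_singleton_prime h.ne_zero).mpr h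
  exact Ideal.comap_isPrime _ _

lemma not_mem (π : D) (s : R D) (hs : s ∉ QQ D π) :
    s * xx D ∉ Ideal.span ({yy D, zz D, cc D π} : Set (R D)) := by
  intro h
  apply hs
  rw [QQ, Ideal.mem_comap, ev_apply, Ideal.mem_span_singleton]
  rw [Ideal.mem_span_insert] at h
  obtain ⟨a, w, hw, h⟩ := h
  rw [Ideal.mem_span_pair] at hw
  obtain ⟨b, c, rfl⟩ := hw
  have him := congrArg QuadraticAlgebra.im h
  simp only [xx, yy, zz, cc, QuadraticAlgebra.im_mul, QuadraticAlgebra.im_add] at him
  have h2 := congrArg (fun u : U D => (u.eval 0).eval 0) him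
  simp only [eval_add, eval_mul, eval_X, eval_C, eval_zero, eval_one, mul_zero, mul_one, zero_mul,
    add_zero, zero_add] at h2
  rw [h2]
  exact Dvd.intro_left _ rfl

theorem not_splinter_QQ (π : D) (hπ : Prime π) (p : ℕ) (hp : p.Prime) (hodd : Odd p)
    (hd : π ^ p ∣ (p : D)) : ∀ (h : (QQ D π).IsPrime), ¬ IsSplinter (Localization.AtPrime (QQ D π)) := by
  intro hprime
  have hp3 : 3 ≤ p := by
    have := hp.two_le
    rcases hodd with ⟨k, hk⟩
    omega
  obtain ⟨c, d, h1⟩ := x_pow D p hodd hp3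
  obtain ⟨u, hu⟩ := hd
  set A := Localization.AtPrime (QQ D π) with hA
  have hle : (QQ D π).primeCompl ≤ nonZeroDivisors (R D) := Ideal.primeCompl_le_nonZeroDivisors _
  haveI : IsDomain A := IsLocalization.isDomain_localization hle
  have hinj : Function.Injective (algebraMap (R D) A) := IsLocalization.injective A hle
  refine not_splinter A p hp hodd (algebraMap _ A (xx D)) (algebraMap _ A (yy D))
    (algebraMap _ A (zz D)) (algebraMap _ A (cc D π)) (algebraMap _ A c) (algebraMap _ A d)
    (algebraMap _ A (cc D u)) ?_ ?_ ?_ ?_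
  · rw [← map_pow, h1, map_add, map_mul, map_mul, map_pow, map_pow]
  · rw [← map_pow, ← map_mul, ← cc_algebraMap, ← cc_algebraMap, ← map_pow, ← map_mul, ← hu,
      map_natCast, map_natCast]
  · rw [Ne, map_eq_zero_iff _ hinj]
    intro h
    have h2 := congrArg (ev D) h
    rw [map_zero, ev_apply, cc] at h2
    simp only [eval_C] at h2
    exact hπ.ne_zero h2
  · intro h
    have e : ({algebraMap (R D) A (yy D), algebraMap (R D) A (zz D), algebraMap (R D) A (cc D π)} :
        Set A) = algebraMap (R D) A '' {yy D, zz D, cc D π} := by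
      rw [Set.image_insert_eq, Set.image_insert_eq, Set.image_singleton]
    rw [e, ← Ideal.map_span, IsLocalization.algebraMap_mem_map_algebraMap_iff (QQ D π).primeCompl] at h
    obtain ⟨s, hs, hs2⟩ := h
    exact not_mem D π s hs hs2

theorem splinter_P [CharZero D] [Fact (IsUnit (2 : D))] (h : (RingHom.ker (ev D)).IsPrime) :
    IsSplinter (Localization.AtPrime (RingHom.ker (ev D))) := by
  set A := Localization.AtPrime (RingHom.ker (ev D)) with hA
  have hle : (RingHom.ker (ev D)).primeCompl ≤ nonZeroDivisors (R D) :=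
    Ideal.primeCompl_le_nonZeroDivisors _
  haveI : IsDomain A := IsLocalization.isDomain_localization hle
  haveI : IsIntegrallyClosed A := isIntegrallyClosed_of_isLocalization A _ hle
  apply splinter_of_normal
  intro n hn
  have h1 : (n : R D) ∈ (RingHom.ker (ev D)).primeCompl := by
    intro h2
    have h3 : ev D (n : R D) = 0 := h2
    rw [map_natCast] at h3
    exact hn (by exact_mod_cast h3)
  have := IsLocalization.map_units A (⟨(n : R D), h1⟩ : (RingHom.ker (ev D)).primeCompl)
  simpa using this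

theorem main_aux [CharZero D] [Fact (IsUnit (2 : D))] (τ : ℕ → D) (q : ℕ → ℕ)
    (hq : ∀ i, (q i).Prime ∧ Odd (q i)) (hτ : ∀ i, Prime (τ i))
    (hd : ∀ i, τ i ^ q i ∣ ((q i : ℕ) : D)) (hfin : ∀ d, d ≠ 0 → {i | τ i ∣ d}.Finite) :
    ¬ IsOpen {𝔭 : PrimeSpectrum (R D) | IsSplinter (Localization.AtPrime 𝔭.asIdeal)} := by
  intro hopen
  have hPprime : (RingHom.ker (ev D)).IsPrime := RingHom.ker_isPrime _
  let P : PrimeSpectrum (R D) := ⟨RingHom.ker (ev D), hPprime⟩
  have hP : P ∈ {𝔭 : PrimeSpectrum (R D) | IsSplinter (Localization.AtPrime 𝔭.asIdeal)} :=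
    splinter_P D hPprime
  obtain ⟨V, ⟨f, rfl⟩, hPV, hVW⟩ :=
    PrimeSpectrum.isTopologicalBasis_basic_opens.exists_subset_of_mem_open hP hopen
  have hf : ev D f ≠ 0 := hPV
  obtain ⟨i, hi⟩ := (hfin _ hf).exists_notMem
  have hQ := QQ_prime D (τ i) (hτ i)
  have hmem : (⟨QQ D (τ i), hQ⟩ : PrimeSpectrum (R D)) ∈ PrimeSpectrum.basicOpen f := by
    intro h
    apply hi
    exact Ideal.mem_span_singleton.mp h
  exact not_splinter_QQ D (τ i) (hτ i) (q i) (hq i).1 (hq i).2 (hd i) hQ (hVW hmem)

end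

/-- **Main theorem**: the splinter locus of a finitely generated algebra over a
principal ideal domain of characteristic zero need not be open. -/
theorem main : ∃ (D : Type) (_ : CommRing D) (_ : IsDomain D) (R : Type) (_ : CommRing R)
    (_ : IsDomain R) (_ : Algebra D R),
    IsPrincipalIdealRing D ∧ CharZero D ∧ Algebra.FiniteType D R ∧ IsIntegrallyClosed R ∧
    ¬ IsOpen {𝔭 : PrimeSpectrum R | IsSplinter (Localization.AtPrime 𝔭.asIdeal)} := by
  obtain ⟨D, i1, i2, τ, q, h1, h2, h3, hq, hτ, hd, hfin⟩ := exists_D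
  haveI : Fact (IsUnit (2 : D)) := ⟨h3⟩
  refine ⟨D, i1, i2, R D, inferInstance, inferInstance, inferInstance, h1, h2, ?_, inferInstance,
    main_aux D τ q hq hτ hd hfin⟩
  haveI : Algebra.FiniteType D (U D) := Algebra.FiniteType.trans (S := Polynomial D) inferInstance inferInstance
  haveI : Algebra.FiniteType (U D) (R D) := inferInstance
  exact Algebra.FiniteType.trans (S := U D) inferInstance inferInstance

end H215R4
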