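import Mathlib

namespace H215R4
open Polynomial

section
variable (D : Type) [CommRing D] [IsDomain D] [IsPrincipalIdealRing D]

/-- `D[z][y]` -/
abbrev U := Polynomial (Polynomial D)

/-- `y^7 + z^7 (1+z)` -/
noncomputable def g : U D := X ^ 7 + C (X ^ 7 * (X - C (-1)))

abbrev R := QuadraticAlgebra (U D) (g D) 0

lemma g_natDegree : (g D).natDegree = 7 := by
  rw [g]; exact natDegree_X_pow_add_C

lemma g_monic : (g D).Monic := by
  rw [g]; exact monic_X_pow_add_C _ (by norm_num)

lemma g_ne : g D ≠ 0 := (g_monic D).ne_zero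

lemma g_irred : Irreducible (g D) := by
  have hP : (Ideal.span {(X - C (-1) : D[X])}).IsPrime :=
    (Ideal.span_singleton_prime (X_sub_C_ne_zero _)).mpr (prime_X_sub_C _)
  have hdeg : (g D).degree = 7 := by
    rw [g]; exact degree_X_pow_add_C (by norm_num) _
  refine irreducible_of_eisenstein_criterion hP ?_ ?_ ?_ ?_ (g_monic D).isPrimitive
  · rw [(g_monic D).leadingCoeff]
    intro h
    exact hP.ne_top ((Ideal.eq_top_iff_one _).mpr h)
  · intro n hn
    rw [hdeg] at hn
    have hn' : n < 7 := by exact_mod_cast hn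
    rw [g, coeff_add, coeff_X_pow, if_neg (by omega), zero_add, coeff_C]
    split_ifs
    · exact Ideal.mul_mem_left _ _ (Ideal.mem_span_singleton_self _)
    · exact zero_mem _
  · rw [hdeg]; norm_num
  · have : (g D).coeff 0 = X ^ 7 * (X - C (-1)) := by
      rw [g, coeff_add, coeff_X_pow, if_neg (by norm_num), zero_add, coeff_C_zero]
    rw [this, Ideal.span_singleton_pow, Ideal.mem_span_singleton, pow_two]
    intro h
    have h2 := (mul_dvd_mul_iff_right (X_sub_C_ne_zero (-1 : D))).mp h
    rw [dvd_iff_isRoot, IsRoot, eval_pow, eval_X] at h2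
    exact (pow_ne_zero 7 (neg_ne_zero.mpr one_ne_zero)) h2

lemma norm_zero' (a b : U D) (h : a ^ 2 = g D * b ^ 2) : a = 0 ∧ b = 0 := by
  by_cases hb : b = 0
  · subst hb
    refine ⟨?_, rfl⟩
    simpa using h
  · exfalso
    have h1 := congrArg natDegree h
    rw [natDegree_pow, natDegree_mul (g_ne D) (pow_ne_zero 2 hb), natDegree_pow, g_natDegree] at h1
    omega

instance : NoZeroDivisors (R D) := by
  refine ⟨fun {z w} h => ?_⟩
  have hn : QuadraticAlgebra.norm z * QuadraticAlgebra.norm w = 0 := by
    rw [← map_mul, h]; exact QuadraticAlgebra.norm_zero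
  have key : ∀ z : R D, QuadraticAlgebra.norm z = 0 → z = 0 := by
    intro z hz
    rw [QuadraticAlgebra.norm_def] at hz
    have : z.re ^ 2 = g D * z.im ^ 2 := by linear_combination hz
    obtain ⟨h1, h2⟩ := norm_zero' D _ _ this
    exact QuadraticAlgebra.ext h1 h2
  rcases mul_eq_zero.mp hn with h | h
  · exact Or.inl (key _ h)
  · exact Or.inr (key _ h)

instance : IsDomain (R D) := NoZeroDivisors.to_isDomain _

lemma sq_dvd (b c : U D) (h : c ^ 2 ∣ b ^ 2 * g D) : c ∣ b := by
  obtain ⟨k, hk⟩ := h
  have h1 : c ^ 2 ∣ (b * g D) ^ 2 := ⟨k * g D, by rw [mul_pow]; linear_combination g D * hk⟩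
  have h2 : c ∣ b * g D := (IsIntegrallyClosed.pow_dvd_pow_iff two_ne_zero).mp h1
  obtain ⟨m, hm⟩ := h2
  by_cases hc : c = 0
  · subst hc
    have h3 : b * g D = 0 := by rw [hm]; ring
    rw [(mul_eq_zero.mp h3).resolve_right (g_ne D)]
  · have h3 : m ^ 2 = g D * k := by
      apply mul_left_cancel₀ (pow_ne_zero 2 hc)
      rw [← mul_pow, ← hm, mul_pow]
      linear_combination g D * hk
    have hp : Prime (g D) := (g_irred D).prime
    obtain ⟨m', rfl⟩ := hp.dvd_of_dvd_pow (Dvd.intro _ h3.symm)
    refine ⟨m', ?_⟩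
    apply mul_right_cancel₀ (g_ne D)
    rw [hm]; ring

lemma int_dvd (n c : U D) (hc : c ≠ 0)
    (h : IsIntegral (U D) (algebraMap (U D) (FractionRing (R D)) n /
      algebraMap (U D) (FractionRing (R D)) c)) : c ∣ n := by
  have hinj : Function.Injective (algebraMap (U D) (FractionRing (R D))) := by
    rw [IsScalarTower.algebraMap_eq (U D) (R D) (FractionRing (R D))]
    refine (IsFractionRing.injective (R D) _).comp ?_
    intro a b hab
    exact congrArg QuadraticAlgebra.re hab
  haveI : FaithfulSMul (U D) (FractionRing (R D)) := (faithfulSMul_iff_algebraMap_injective _ _).mpr hinj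
  letI : Algebra (FractionRing (U D)) (FractionRing (R D)) :=
    FractionRing.liftAlgebra (U D) (FractionRing (R D))
  haveI : IsScalarTower (U D) (FractionRing (U D)) (FractionRing (R D)) :=
    FractionRing.isScalarTower_liftAlgebra (U D) (FractionRing (R D))
  have h1 : algebraMap (U D) (FractionRing (R D)) n / algebraMap (U D) (FractionRing (R D)) c =
      algebraMap (FractionRing (U D)) (FractionRing (R D))
        (algebraMap (U D) (FractionRing (U D)) n / algebraMap (U D) (FractionRing (U D)) c) := by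
    rw [map_div₀, ← IsScalarTower.algebraMap_apply, ← IsScalarTower.algebraMap_apply]
  rw [h1, isIntegral_algebraMap_iff (algebraMap (FractionRing (U D)) (FractionRing (R D))).injective] at h
  obtain ⟨m, hm⟩ := IsIntegrallyClosed.isIntegral_iff.mp h
  refine ⟨m, ?_⟩
  apply IsFractionRing.injective (U D) (FractionRing (U D))
  have hc' : algebraMap (U D) (FractionRing (U D)) c ≠ 0 := by
    rw [Ne, map_eq_zero_iff _ (IsFractionRing.injective (U D) (FractionRing (U D)))]; exact hc
  rw [map_mul, hm, mul_comm, div_mul_cancel₀ _ hc']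

lemma R_int : Algebra.IsIntegral (U D) (R D) := Algebra.IsIntegral.of_finite (U D) (R D)

lemma R_algebraMap (u : U D) : algebraMap (U D) (R D) u = ⟨u, 0⟩ := rfl


end
end H215R4
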