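import Mathlib

namespace H215R4

/-- A ring `A` is a splinter if every finite `A → B` that is surjective on spectra splits. -/
def IsSplinter (A : Type) [CommRing A] : Prop :=
  ∀ (B : Type) [CommRing B] [Algebra A B], Module.Finite A B →
    Function.Surjective (PrimeSpectrum.comap (algebraMap A B)) →
    ∃ ρ : B →ₗ[A] A, ρ 1 = 1

/-- A normal domain in which the positive integers are invertible is a splinter. -/
theorem splinter_of_normal (A : Type) [CommRing A] [IsDomain A] [IsIntegrallyClosed A]
    (hQ : ∀ n : ℕ, n ≠ 0 → IsUnit (n : A)) : IsSplinter A := by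
  intro B _ _ hfin hsurj
  obtain ⟨Q, hQ0⟩ := hsurj ⟨⊥, Ideal.isPrime_bot⟩
  have hQc : Q.asIdeal.comap (algebraMap A B) = ⊥ := congrArg PrimeSpectrum.asIdeal hQ0
  let C := B ⧸ Q.asIdeal
  haveI : IsDomain C := Ideal.Quotient.isDomain _
  have hinj : Function.Injective (algebraMap A C) := by
    rw [injective_iff_map_eq_zero]
    intro a ha
    have h1 : algebraMap A C a = Ideal.Quotient.mk Q.asIdeal (algebraMap A B a) := rfl
    rw [h1, Ideal.Quotient.eq_zero_iff_mem] at ha
    have : a ∈ Q.asIdeal.comap (algebraMap A B) := ha
    rw [hQc] at this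
    simpa using this
  haveI : FaithfulSMul A C := (faithfulSMul_iff_algebraMap_injective A C).mpr hinj
  haveI : Module.Finite A C := Module.Finite.of_surjective (Ideal.Quotient.mkₐ A Q.asIdeal).toLinearMap
    (Ideal.Quotient.mkₐ_surjective A Q.asIdeal)
  let K := FractionRing A
  let L := FractionRing C
  haveI : Algebra.IsIntegral A C := Algebra.IsIntegral.of_finite A C
  letI : Algebra K L := FractionRing.liftAlgebra A L
  haveI : IsScalarTower A K L := FractionRing.isScalarTower_liftAlgebra A L
  haveI : Algebra.IsAlgebraic A C := Algebra.IsIntegral.isAlgebraic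
  haveI : FiniteDimensional K L := .of_isLocalization A C (nonZeroDivisors A)
  have htr : ∀ c : C, ∃ a : A, algebraMap A K a = Algebra.trace K L (algebraMap C L c) := by
    intro c
    have h1 : IsIntegral A (Algebra.trace K L (algebraMap C L c)) := by
      apply Algebra.isIntegral_trace
      exact (Algebra.IsIntegral.isIntegral (R := A) c).algebraMap
    exact IsIntegrallyClosed.isIntegral_iff.mp h1
  choose τ hτ using htr
  have hKinj : Function.Injective (algebraMap A K) := IsFractionRing.injective A K
  let T : C →ₗ[A] A :=
    { toFun := τ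
      map_add' := fun x y => by
        apply hKinj
        rw [hτ, map_add, map_add, map_add, hτ, hτ]
      map_smul' := fun a x => by
        apply hKinj
        rw [hτ, smul_eq_mul, map_mul, hτ, RingHom.id_apply]
        have : algebraMap C L (a • x) = (algebraMap A K a) • algebraMap C L x := by
          rw [algebraMap_smul, Algebra.smul_def, map_mul, Algebra.smul_def,
            ← IsScalarTower.algebraMap_apply]
        rw [this, map_smul, smul_eq_mul] }
  obtain ⟨u, hu⟩ := hQ (Module.finrank K L) (Module.finrank_pos (R := K) (M := L)).ne'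
  refine ⟨((↑u⁻¹ : A) • T) ∘ₗ (Ideal.Quotient.mkₐ A Q.asIdeal).toLinearMap, ?_⟩
  have hT1 : T 1 = (Module.finrank K L : A) := by
    apply hKinj
    show algebraMap A K (τ 1) = _
    rw [hτ, map_one, map_natCast]
    have := Algebra.trace_algebraMap_of_basis (Module.finBasis K L) (1 : K)
    rw [map_one] at this
    rw [this, Fintype.card_fin]
    simp
  simp only [LinearMap.comp_apply, LinearMap.smul_apply]
  have h1 : (Ideal.Quotient.mkₐ A Q.asIdeal).toLinearMap 1 = (1 : C) := by simp [C]
  rw [h1, hT1, ← hu, smul_eq_mul, Units.inv_mul]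

end H215R4
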